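import Mathlib

/-!
# Legendre multiplier sequences: the definitions
-/

set_option autoImplicit false

open Polynomial

namespace Pool.Agent.P8H71.Leg

/-- The Legendre polynomial `P_n`, by the Rodrigues formula. -/
noncomputable def legendre (n : ℕ) : ℝ[X] :=
  C (1 / (2 ^ n * (n.factorial : ℝ))) * derivative^[n] ((X ^ 2 - 1) ^ n)

/-- All complex zeros of the real polynomial `p` are real, or `p = 0` (so the zero polynomial and the
nonzero constants count). -/
def OnlyRealZeros (p : ℝ[X]) : Prop := p = 0 ∨ ∀ z : ℂ, aeval z p = 0 → z.im = 0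

/-- `γ` is a Legendre multiplier sequence: whenever the finite sum `∑ a_k P_k` has only real zeros,
so has `∑ γ_k a_k P_k`. -/
def IsLegendreMultiplier (γ : ℕ → ℝ) : Prop :=
  ∀ a : ℕ →₀ ℝ, OnlyRealZeros (a.sum fun k c => C c * legendre k) →
    OnlyRealZeros (a.sum fun k c => C (γ k * c) * legendre k)

end Pool.Agent.P8H71.Leg
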