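import Mathlib
import Pool.Agent.P8H71.LegDef

set_option autoImplicit false

open Polynomial Finset

namespace Pool.Agent.P8H71.Leg

/-! ## The differential operator -/

/-- `D f = (y (y - 1) f')'`. -/
noncomputable def D : Module.End ℝ ℝ[X] where
  toFun f := derivative (X * ((X - 1) * derivative f))
  map_add' f g := by simp [mul_add]
  map_smul' c f := by simp

theorem D_apply (f : ℝ[X]) : D f = derivative (X * ((X - 1) * derivative f)) := rfl

theorem D_coeff (f : ℝ[X]) (i : ℕ) :
    (D f).coeff i = (i : ℝ) * (i + 1) * f.coeff i - ((i : ℝ) + 1) ^ 2 * f.coeff (i + 1) := by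
  rw [D_apply, coeff_derivative, coeff_X_mul, sub_mul, coeff_sub, one_mul, coeff_derivative]
  rcases i with _ | i
  · simp
  · rw [coeff_X_mul, coeff_derivative]
    push_cast
    ring

/-! ## The Legendre differential equation -/

theorem C_two : (C 2 : ℝ[X]) = 2 := map_ofNat C 2

theorem der_two : derivative (2 : ℝ[X]) = 0 := by
  rw [← C_two]; exact derivative_C

theorem ode_aux (w : ℕ → ℝ[X]) (c : ℝ[X]) (hc : derivative c = 0)
    (hw : ∀ k, derivative (w k) = w (k + 1))
    (h0 : (X ^ 2 - 1) * w 1 = 2 * c * X * w 0) (k : ℕ) :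
    (X ^ 2 - 1) * w (k + 2) + 2 * ((k : ℝ[X]) + 1) * X * w (k + 1) +
      ((k : ℝ[X]) + 1) * (k : ℝ[X]) * w k =
    2 * c * (X * w (k + 1) + ((k : ℝ[X]) + 1) * w k) := by
  induction k with
  | zero =>
    have h2 := congrArg derivative h0
    simp only [derivative_mul, derivative_sub, derivative_X_pow, derivative_one, derivative_X,
      hc, der_two, hw] at h2
    simp [C_two] at h2 ⊢
    linear_combination h2
  | succ k ih =>
    have h2 := congrArg derivative ih
    simp only [derivative_mul, derivative_add, derivative_sub, derivative_X_pow, derivative_one,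
      derivative_X, derivative_natCast, der_two, hc, hw] at h2
    simp [C_two] at h2
    push_cast
    linear_combination h2

theorem ode (n : ℕ) :
    (X ^ 2 - 1) * derivative (derivative (legendre n)) + 2 * X * derivative (legendre n) =
      (n : ℝ[X]) * ((n : ℝ[X]) + 1) * legendre n := by
  have h0 : (X ^ 2 - 1) * derivative ((X ^ 2 - 1 : ℝ[X]) ^ n) =
      2 * (n : ℝ[X]) * X * (X ^ 2 - 1) ^ n := by
    rcases n with _ | n
    · simp
    · rw [derivative_pow]
      simp
      ring
  have h := ode_aux (fun k => derivative^[k] ((X ^ 2 - 1 : ℝ[X]) ^ n)) (n : ℝ[X])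
    derivative_natCast (fun k => (Function.iterate_succ_apply' _ _ _).symm) h0 n
  unfold legendre
  simp only [derivative_mul, derivative_C, zero_mul, zero_add]
  rw [← Function.iterate_succ_apply' derivative, ← Function.iterate_succ_apply' derivative]
  linear_combination C (1 / (2 ^ n * (n.factorial : ℝ))) * h

/-- The Legendre polynomial in the variable `y`, `x = 2 y - 1`. -/
noncomputable def pl (n : ℕ) : ℝ[X] := (legendre n).comp (2 * X - 1)

theorem D_pl (n : ℕ) : D (pl n) = ((n : ℝ) * (n + 1)) • pl n := by
  have h := congrArg (fun p : ℝ[X] => p.comp (2 * X - 1)) (ode n)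
  simp only [add_comp, mul_comp, sub_comp, pow_comp, X_comp, one_comp, natCast_comp] at h
  have e2 : derivative (2 * X - 1 : ℝ[X]) = 2 := by
    simp [der_two]
  have h1 : derivative (pl n) = 2 * (derivative (legendre n)).comp (2 * X - 1) := by
    unfold pl; rw [derivative_comp, e2]
  have h2 : derivative (derivative (pl n)) =
      4 * (derivative (derivative (legendre n))).comp (2 * X - 1) := by
    rw [h1, derivative_mul, der_two, derivative_comp, e2]
    ring
  have e3 : (2 : ℝ[X]).comp (2 * X - 1) = 2 := by
    rw [← C_two, C_comp]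
  rw [e3] at h
  rw [D_apply]
  have h3 : derivative (X * ((X - 1) * derivative (pl n))) =
      X * (X - 1) * derivative (derivative (pl n)) + (2 * X - 1) * derivative (pl n) := by
    simp only [derivative_mul, derivative_X, derivative_sub, derivative_one]
    ring
  rw [h3, h2, h1]
  have h4 : ((n : ℝ) * (n + 1)) • pl n = (n : ℝ[X]) * ((n : ℝ[X]) + 1) * pl n := by
    rw [smul_eq_C_mul]; simp
  rw [h4]
  unfold pl
  linear_combination h

/-! ## The degree of the Legendre polynomials -/

theorem legendre_natDegree_le (n : ℕ) : (legendre n).natDegree ≤ n := by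
  unfold legendre
  refine (natDegree_C_mul_le _ _).trans ((natDegree_iterate_derivative _ _).trans ?_)
  have h1 : ((X ^ 2 - 1 : ℝ[X]) ^ n).natDegree ≤ n * 2 := by
    refine natDegree_pow_le.trans (Nat.mul_le_mul_left n ?_)
    rw [show (1 : ℝ[X]) = C 1 by simp]
    exact (natDegree_X_pow_sub_C).le
  omega

theorem legendre_coeff (n : ℕ) : (legendre n).coeff n ≠ 0 := by
  unfold legendre
  rw [coeff_C_mul, coeff_iterate_derivative]
  have h1 : ((X ^ 2 - 1 : ℝ[X]) ^ n).coeff (n + n) = 1 := by
    have hm : (X ^ 2 - 1 : ℝ[X]).Monic := by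
      rw [show (1 : ℝ[X]) = C 1 by simp]
      exact monic_X_pow_sub_C 1 (by norm_num)
    have hd : ((X ^ 2 - 1 : ℝ[X]) ^ n).natDegree = n + n := by
      rw [hm.natDegree_pow]
      rw [show (1 : ℝ[X]) = C 1 by simp, natDegree_X_pow_sub_C]
      ring
    rw [← hd]
    exact hm.pow n
  rw [h1]
  have h2 : (n + n).descFactorial n ≠ 0 := by
    rw [Ne, Nat.descFactorial_eq_zero_iff_lt]
    omega
  have h3 : ((n + n).descFactorial n • (1 : ℝ)) ≠ 0 := by
    rw [nsmul_eq_mul, mul_one]
    exact_mod_cast h2
  exact mul_ne_zero (by positivity) h3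

end Pool.Agent.P8H71.Leg
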