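import Mathlib
import Pool.Agent.P8H71.LegA

set_option autoImplicit false

open Polynomial Finset

namespace Pool.Agent.P8H71.Leg

/-! ## The coefficients of `√(1 - t)` -/

/-- The coefficients of `√(1 - t)`. -/
noncomputable def g : ℕ → ℝ
  | 0 => 1
  | (m + 1) => -2 * (catalan m : ℝ) / 4 ^ (m + 1)

theorem g_zero : g 0 = 1 := rfl

theorem g_succ (m : ℕ) : g (m + 1) = -2 * (catalan m : ℝ) / 4 ^ (m + 1) := rfl

theorem g_ne (m : ℕ) : g m ≠ 0 := by
  rcases m with _ | m
  · rw [g_zero]; norm_num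
  · rw [g_succ]
    have : (catalan m : ℝ) ≠ 0 := by
      rw [catalan_eq_centralBinom_div]
      have h := Nat.succ_dvd_centralBinom m
      have h1 := Nat.centralBinom_pos m
      have h2 : 0 < m.centralBinom / (m + 1) := Nat.div_pos (Nat.le_of_dvd h1 h) (by omega)
      exact_mod_cast h2.ne'
    positivity

theorem conv (N : ℕ) : ∑ ij ∈ antidiagonal N, g ij.1 * g ij.2 =
    if N = 0 then 1 else if N = 1 then -1 else 0 := by
  rcases N with _ | N
  · simp [g_zero]
  rcases N with _ | N
  · rw [Nat.sum_antidiagonal_eq_sum_range_succ_mk]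
    simp [Finset.sum_range_succ, g_zero, g_succ]
    norm_num
  · rw [Nat.sum_antidiagonal_succ, Nat.sum_antidiagonal_succ', if_neg (by omega), if_neg (by omega)]
    simp only [g_zero, one_mul, mul_one]
    have h1 : ∑ p ∈ antidiagonal N, g (p.1 + 1) * g (p.2 + 1) =
        4 / 4 ^ (N + 2) * ∑ p ∈ antidiagonal N, (catalan p.1 : ℝ) * (catalan p.2 : ℝ) := by
      rw [Finset.mul_sum]
      refine Finset.sum_congr rfl fun p hp => ?_
      rw [HasAntidiagonal.mem_antidiagonal] at hp
      rw [g_succ, g_succ, ← hp]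
      field_simp
      ring
    rw [h1]
    have h2 : (catalan (N + 1) : ℝ) =
        ∑ p ∈ antidiagonal N, (catalan p.1 : ℝ) * (catalan p.2 : ℝ) := by
      rw [catalan_succ']; push_cast; rfl
    rw [← h2, g_succ]
    ring

/-- The numbers `C(2i, i) / 4^i`. -/
noncomputable def u (i : ℕ) : ℝ := (i.centralBinom : ℝ) / 4 ^ i

theorem u_pos (i : ℕ) : 0 < u i := by
  unfold u
  have := Nat.centralBinom_pos i
  positivity

theorem u_succ (i : ℕ) : u (i + 1) = u i * ((2 * i + 1) / (2 * (i + 1))) := by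
  unfold u
  have h := Nat.succ_mul_centralBinom_succ i
  have h2 : ((i : ℝ) + 1) * ((i + 1).centralBinom : ℝ) = 2 * (2 * i + 1) * (i.centralBinom : ℝ) := by
    exact_mod_cast h
  have h3 : ((i + 1).centralBinom : ℝ) = 2 * (2 * i + 1) * (i.centralBinom : ℝ) / ((i : ℝ) + 1) := by
    field_simp
    linarith
  rw [h3, pow_succ]
  field_simp
  ring

/-- The matrix of the operator `M`. -/
noncomputable def mu (n i : ℕ) : ℝ := (2 * i + 1) * (u i / u n) * g (n - i)

/-- The image of `y^n`. -/
noncomputable def Mn (n : ℕ) : ℝ[X] := ∑ i ∈ range (n + 1), C (mu n i) * X ^ i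

theorem Mn_coeff (n i : ℕ) : (Mn n).coeff i = if i ≤ n then mu n i else 0 := by
  unfold Mn
  rw [finsetSum_coeff]
  simp only [coeff_C_mul, coeff_X_pow, mul_ite, mul_one, mul_zero]
  rw [Finset.sum_ite_eq]
  simp [Nat.lt_succ_iff]

/-- The operator `M` with `M P_k = (2 k + 1) P_k`. -/
noncomputable def M : Module.End ℝ ℝ[X] := (Polynomial.basisMonomials ℝ).constr ℝ Mn

theorem M_X_pow (n : ℕ) : M (X ^ n) = Mn n := by
  have h := (Polynomial.basisMonomials ℝ).constr_basis ℝ Mn n
  rw [Polynomial.coe_basisMonomials] at h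
  rw [← Polynomial.monomial_one_right_eq_X_pow]
  exact h

theorem end_ext {S T : Module.End ℝ ℝ[X]} (h : ∀ n : ℕ, S (X ^ n) = T (X ^ n)) : S = T := by
  apply (Polynomial.basisMonomials ℝ).ext
  intro n
  rw [Polynomial.coe_basisMonomials]
  have := h n
  rw [← Polynomial.monomial_one_right_eq_X_pow] at this
  exact this

theorem M_sum (f : ℝ[X]) : M f = ∑ n ∈ range (f.natDegree + 1), C (f.coeff n) * Mn n := by
  conv_lhs => rw [f.as_sum_range_C_mul_X_pow]
  rw [map_sum]
  refine Finset.sum_congr rfl fun n _ => ?_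
  rw [← smul_eq_C_mul, map_smul, M_X_pow, smul_eq_C_mul]

theorem M_coeff_eq (f : ℝ[X]) (k : ℕ) (hf : f.natDegree ≤ k) :
    (M f).coeff k = (2 * k + 1) * f.coeff k := by
  rw [M_sum, finsetSum_coeff]
  simp only [coeff_C_mul, Mn_coeff]
  have h1 : ∀ n ∈ range (f.natDegree + 1), f.coeff n * (if k ≤ n then mu n k else 0) =
      if n = k then (2 * k + 1) * f.coeff k else 0 := by
    intro n hn
    rw [mem_range] at hn
    by_cases h : n = k
    · subst h
      rw [if_pos le_rfl, if_pos rfl]
      unfold mu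
      rw [Nat.sub_self, g_zero, div_self (u_pos n).ne']
      ring
    · rw [if_neg (by omega), if_neg h, mul_zero]
  rw [Finset.sum_congr rfl h1, Finset.sum_ite_eq']
  split_ifs with h
  · rfl
  · have : f.coeff k = 0 := coeff_eq_zero_of_natDegree_lt (by
      rw [mem_range] at h; omega)
    rw [this, mul_zero]

theorem M_natDegree_le (f : ℝ[X]) (k : ℕ) (hf : f.natDegree ≤ k) : (M f).natDegree ≤ k := by
  rw [natDegree_le_iff_coeff_eq_zero]
  intro i hi
  rw [M_sum, finsetSum_coeff]
  apply Finset.sum_eq_zero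
  intro n hn
  rw [mem_range] at hn
  rw [coeff_C_mul, Mn_coeff, if_neg (by omega), mul_zero]

theorem MM_coeff (n i : ℕ) : (M (Mn n)).coeff i =
    if i = n then (2 * (n : ℝ) + 1) ^ 2 else if i + 1 = n then -(4 * (n : ℝ) ^ 2) else 0 := by
  have h1 : M (Mn n) = ∑ j ∈ range (n + 1), C (mu n j) * Mn j := by
    unfold Mn
    rw [map_sum]
    refine Finset.sum_congr rfl fun j _ => ?_
    rw [← smul_eq_C_mul, map_smul, M_X_pow, smul_eq_C_mul]
    rfl
  rw [h1, finsetSum_coeff]
  simp only [coeff_C_mul, Mn_coeff]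
  by_cases hin : n < i
  · rw [if_neg (by omega), if_neg (by omega)]
    apply Finset.sum_eq_zero
    intro j hj
    rw [mem_range] at hj
    rw [if_neg (by omega), mul_zero]
  push Not at hin
  obtain ⟨N, rfl⟩ := Nat.exists_eq_add_of_le hin
  have h2 : ∑ j ∈ range (i + N + 1), mu (i + N) j * (if i ≤ j then mu j i else 0) =
      (2 * i + 1) * (u i / u (i + N)) *
        ∑ m ∈ range (N + 1), (2 * ((i + m : ℕ) : ℝ) + 1) * (g (N - m) * g m) := by
    rw [show i + N + 1 = i + (N + 1) by ring, Finset.sum_range_add]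
    rw [Finset.sum_eq_zero (s := range i) (fun j hj => by
      rw [mem_range] at hj
      rw [if_neg (by omega), mul_zero]), zero_add, Finset.mul_sum]
    refine Finset.sum_congr rfl fun m hm => ?_
    rw [if_pos (by omega)]
    unfold mu
    rw [show i + N - (i + m) = N - m by omega, show i + m - i = m by omega]
    have := (u_pos (i + m)).ne'
    field_simp
  rw [h2]
  have h3 : ∑ m ∈ range (N + 1), (2 * ((i + m : ℕ) : ℝ) + 1) * (g (N - m) * g m) =
      (2 * i + 1 + N) * ∑ ij ∈ antidiagonal N, g ij.1 * g ij.2 := by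
    have e1 : ∑ m ∈ range (N + 1), (2 * ((i + m : ℕ) : ℝ) + 1) * (g (N - m) * g m) =
        ∑ ij ∈ antidiagonal N, (2 * ((i + ij.1 : ℕ) : ℝ) + 1) * (g ij.2 * g ij.1) := by
      rw [Nat.sum_antidiagonal_eq_sum_range_succ_mk]
    have e2 : ∑ ij ∈ antidiagonal N, (2 * ((i + ij.1 : ℕ) : ℝ) + 1) * (g ij.2 * g ij.1) =
        ∑ ij ∈ antidiagonal N, (2 * ((i + ij.2 : ℕ) : ℝ) + 1) * (g ij.1 * g ij.2) := by
      rw [← Finset.Nat.sum_antidiagonal_swap]
      rfl
    have e3 : 2 * ∑ ij ∈ antidiagonal N, (2 * ((i + ij.1 : ℕ) : ℝ) + 1) * (g ij.2 * g ij.1) =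
        2 * ((2 * i + 1 + N) * ∑ ij ∈ antidiagonal N, g ij.1 * g ij.2) := by
      rw [two_mul]
      nth_rewrite 2 [e2]
      rw [← Finset.sum_add_distrib, Finset.mul_sum, Finset.mul_sum]
      refine Finset.sum_congr rfl fun p hp => ?_
      rw [HasAntidiagonal.mem_antidiagonal] at hp
      rw [← hp]
      push_cast
      ring
    rw [e1]
    linarith
  rw [h3, conv]
  rcases N with _ | N
  · simp
    rw [div_self (u_pos i).ne']
    ring
  rcases N with _ | N
  · have h4 : u (i + (0 + 1)) = u i * ((2 * i + 1) / (2 * (i + 1))) := by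
      rw [zero_add]; exact u_succ i
    rw [h4]
    have := (u_pos i).ne'
    simp
    field_simp
    ring
  · rw [if_neg (by omega), if_neg (by omega), if_neg (by omega), if_neg (by omega)]
    ring

theorem M_sq : M * M = 4 • D + 1 := by
  apply end_ext
  intro n
  rw [Module.End.mul_apply, M_X_pow]
  ext i
  rw [MM_coeff, LinearMap.add_apply, coeff_add, LinearMap.smul_apply, coeff_smul, D_coeff,
    Module.End.one_apply, coeff_X_pow, coeff_X_pow]
  by_cases h1 : i = n
  · subst h1
    rw [if_pos rfl, if_pos rfl, if_neg (by omega)]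
    simp
    ring
  · rw [if_neg h1, if_neg h1]
    by_cases h2 : i + 1 = n
    · rw [if_pos h2, if_pos h2, ← h2]
      simp
    · rw [if_neg h2, if_neg h2]
      simp

theorem MD_comm : M * D = D * M := by
  have h1 : M * (M * M) = (M * M) * M := (mul_assoc _ _ _).symm
  rw [M_sq, mul_add, add_mul, mul_one, one_mul] at h1
  have h2 : M * (4 • D) = (4 • D) * M := add_right_cancel h1
  rw [mul_smul_comm, smul_mul_assoc] at h2
  have h3 : (4 : ℝ) • (M * D) = (4 : ℝ) • (D * M) := by
    have e : ∀ T : Module.End ℝ ℝ[X], (4 : ℝ) • T = 4 • T := by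
      intro T
      rw [← Nat.cast_smul_eq_nsmul ℝ]
      norm_num
    rw [e, e]
    exact h2
  exact smul_right_injective _ (by norm_num : (4 : ℝ) ≠ 0) h3

/-- Uniqueness of eigenvectors. -/
theorem eigen_unique (k : ℕ) (f : ℝ[X]) (hf : f.natDegree ≤ k) (h0 : f.coeff k = 0)
    (hD : D f = ((k : ℝ) * (k + 1)) • f) : f = 0 := by
  have h : ∀ j, j ≤ k → f.coeff (k - j) = 0 := by
    intro j
    induction j with
    | zero => intro _; simpa using h0
    | succ j ih =>
      intro hj
      have h1 := ih (by omega)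
      have h2 := congrArg (fun p => p.coeff (k - (j + 1))) hD
      simp only [D_coeff, coeff_smul, smul_eq_mul] at h2
      rw [show k - (j + 1) + 1 = k - j by omega, h1] at h2
      have h3 : ((k - (j + 1) : ℕ) : ℝ) = (k : ℝ) - (j + 1) := by
        rw [Nat.cast_sub hj]; push_cast; ring
      rw [h3] at h2
      have h4 : (((k : ℝ) - (j + 1)) * ((k : ℝ) - (j + 1) + 1) - (k : ℝ) * (k + 1)) *
          f.coeff (k - (j + 1)) = 0 := by linarith
      rcases mul_eq_zero.1 h4 with h5 | h5
      · exfalso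
        have hk : (j : ℝ) + 1 ≤ k := by exact_mod_cast hj
        have hj0 : (0 : ℝ) ≤ j := Nat.cast_nonneg j
        nlinarith
      · exact h5
  ext i
  rw [coeff_zero]
  by_cases hi : i ≤ k
  · have := h (k - i) (by omega)
    rwa [show k - (k - i) = i by omega] at this
  · exact coeff_eq_zero_of_natDegree_lt (by omega)

theorem pl_natDegree_le (n : ℕ) : (pl n).natDegree ≤ n := by
  unfold pl
  refine natDegree_comp_le.trans ?_
  have h1 : (2 * X - 1 : ℝ[X]).natDegree ≤ 1 := by
    rw [← C_two, show (1 : ℝ[X]) = C 1 by simp]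
    compute_degree
  calc (legendre n).natDegree * (2 * X - 1 : ℝ[X]).natDegree ≤ n * 1 :=
        Nat.mul_le_mul (legendre_natDegree_le n) h1
    _ = n := mul_one n

theorem pl_ne_zero (n : ℕ) : pl n ≠ 0 := by
  intro h
  have h2 : (pl n).comp (C (1/2) * X + C (1/2)) = legendre n := by
    unfold pl
    rw [comp_assoc]
    have : (2 * X - 1 : ℝ[X]).comp (C (1/2) * X + C (1/2)) = X := by
      rw [← C_two, show (1 : ℝ[X]) = C 1 by simp]
      simp only [sub_comp, mul_comp, C_comp, X_comp]
      rw [mul_add, ← mul_assoc, ← C_mul]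
      norm_num
    rw [this, comp_X]
  rw [h, zero_comp] at h2
  apply legendre_coeff n
  rw [← h2, coeff_zero]

theorem pl_coeff (n : ℕ) : (pl n).coeff n ≠ 0 := by
  intro h
  exact pl_ne_zero n (eigen_unique n (pl n) (pl_natDegree_le n) h (D_pl n))

theorem M_pl (n : ℕ) : M (pl n) = (2 * (n : ℝ) + 1) • pl n := by
  have h : M (pl n) - (2 * (n : ℝ) + 1) • pl n = 0 := by
    apply eigen_unique n
    · refine (natDegree_sub_le _ _).trans (max_le (M_natDegree_le _ _ (pl_natDegree_le n)) ?_)
      exact (natDegree_smul_le _ _).trans (pl_natDegree_le n)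
    · rw [coeff_sub, M_coeff_eq _ _ (pl_natDegree_le n), coeff_smul, smul_eq_mul, sub_self]
    · rw [map_sub, map_smul, D_pl]
      have : D (M (pl n)) = M (D (pl n)) := by
        rw [← Module.End.mul_apply, ← MD_comm, Module.End.mul_apply]
      rw [this, D_pl, map_smul, smul_sub, smul_comm]
  exact sub_eq_zero.1 h

end Pool.Agent.P8H71.Leg
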