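import Mathlib
import Pool.Agent.P8H71.LegB
import Pool.Agent.Helper722.RR.Newton

set_option autoImplicit false

open Polynomial Finset Filter Topology

namespace Pool.Agent.P8H71.Leg

/-! ## Powers in the Legendre basis -/

theorem exists_expansion (n : ℕ) (f : ℝ[X]) (hf : f.natDegree ≤ n) :
    ∃ a : ℕ →₀ ℝ, f = a.sum fun k c => C c * pl k := by
  induction n generalizing f with
  | zero =>
    refine ⟨Finsupp.single 0 (f.coeff 0 / (pl 0).coeff 0), ?_⟩
    rw [Finsupp.sum_single_index (by simp)]
    have h1 : f = C (f.coeff 0) := eq_C_of_natDegree_le_zero hf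
    have h2 : pl 0 = C ((pl 0).coeff 0) := eq_C_of_natDegree_le_zero (pl_natDegree_le 0)
    rw [h2, coeff_C_zero, ← C_mul, div_mul_cancel₀ _ (pl_coeff 0)]
    exact h1
  | succ n ih =>
    set c := f.coeff (n + 1) / (pl (n + 1)).coeff (n + 1) with hc
    have h1 : (f - C c * pl (n + 1)).natDegree ≤ n := by
      have h2 : (f - C c * pl (n + 1)).natDegree ≤ n + 1 :=
        (natDegree_sub_le _ _).trans (max_le hf ((natDegree_C_mul_le _ _).trans
          (pl_natDegree_le _)))
      have h3 : (f - C c * pl (n + 1)).coeff (n + 1) = 0 := by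
        rw [coeff_sub, coeff_C_mul, hc, div_mul_cancel₀ _ (pl_coeff _), sub_self]
      rw [natDegree_le_iff_coeff_eq_zero]
      intro i hi
      rcases Nat.lt_or_ge (n + 1) i with h | h
      · exact coeff_eq_zero_of_natDegree_lt (by omega)
      · rw [show i = n + 1 by omega]; exact h3
    obtain ⟨a, ha⟩ := ih _ h1
    refine ⟨a + Finsupp.single (n + 1) c, ?_⟩
    rw [Finsupp.sum_add_index' (by simp) (by intros; simp [add_mul]),
      Finsupp.sum_single_index (by simp), ← ha]
    ring

/-! ## The operator of a polynomial sequence -/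

theorem aeval_eigen (T : Module.End ℝ ℝ[X]) (A : ℝ[X]) (p : ℝ[X]) (t : ℝ) (h : T p = t • p) :
    (aeval T A) p = A.eval t • p := by
  induction A using Polynomial.induction_on' with
  | add a b ha hb => rw [map_add, LinearMap.add_apply, ha, hb, eval_add, add_smul]
  | monomial n c =>
    have h1 : ∀ n : ℕ, (T ^ n) p = t ^ n • p := by
      intro n
      induction n with
      | zero => simp
      | succ n ih =>
        rw [pow_succ', Module.End.mul_apply, ih, map_smul, h, smul_smul, pow_succ]
    rw [aeval_monomial, Module.End.mul_apply, h1, eval_monomial,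
      Module.algebraMap_end_apply, smul_smul]

/-- The operator with `T P_k = (A (k (k+1)) + (2 k + 1) B (k (k+1))) P_k`. -/
noncomputable def T (A B : ℝ[X]) : Module.End ℝ ℝ[X] := aeval D A + aeval D B * M

theorem T_pl (A B : ℝ[X]) (k : ℕ) :
    T A B (pl k) = (A.eval ((k : ℝ) * (k + 1)) + (2 * k + 1) * B.eval ((k : ℝ) * (k + 1))) • pl k := by
  unfold T
  rw [LinearMap.add_apply, Module.End.mul_apply, M_pl, map_smul, aeval_eigen D A _ _ (D_pl k),
    aeval_eigen D B _ _ (D_pl k), smul_smul, ← add_smul]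

theorem onlyReal_iff_comp (F : ℝ[X]) : OnlyRealZeros F ↔ OnlyRealZeros (F.comp (2 * X - 1)) := by
  have hinv : ∀ G : ℝ[X], (G.comp (2 * X - 1)).comp (C (1/2) * X + C (1/2)) = G := by
    intro G
    rw [comp_assoc]
    have : (2 * X - 1 : ℝ[X]).comp (C (1/2) * X + C (1/2)) = X := by
      rw [← C_two, show (1 : ℝ[X]) = C 1 by simp]
      simp only [sub_comp, mul_comp, C_comp, X_comp]
      rw [mul_add, ← mul_assoc, ← C_mul]
      norm_num
    rw [this, comp_X]
  have hev : ∀ z : ℂ, aeval z (F.comp (2 * X - 1)) = aeval (2 * z - 1) F := by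
    intro z
    rw [aeval_comp, map_sub, map_mul, aeval_X, map_one, map_ofNat]
  constructor
  · rintro (h | h)
    · left; rw [h, zero_comp]
    · right
      intro z hz
      rw [hev] at hz
      have := h _ hz
      simp at this
      exact this
  · rintro (h | h)
    · left
      rw [← hinv F, h, zero_comp]
    · right
      intro z hz
      have h1 := h ((z + 1) / 2) (by rw [hev, ← hz]; congr 2; ring)
      have h2 : ((z + 1) / 2).im = z.im / 2 := by
        rw [show (2 : ℂ) = ((2 : ℝ) : ℂ) by norm_num, Complex.div_ofReal_im]; simp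
      rw [h2] at h1
      linarith

theorem T_real (A B : ℝ[X])
    (h : IsLegendreMultiplier (fun k => A.eval ((k : ℝ) * (k + 1)) +
      (2 * k + 1) * B.eval ((k : ℝ) * (k + 1)))) (n : ℕ) :
    OnlyRealZeros (T A B (X ^ n)) := by
  obtain ⟨a, ha⟩ := exists_expansion n (X ^ n) (natDegree_X_pow_le n)
  have hcomp : ∀ c : ℕ → ℝ → ℝ, (∀ k, c k 0 = 0) →
      (a.sum fun k b => C (c k b) * legendre k).comp (2 * X - 1) =
        a.sum fun k b => C (c k b) * pl k := by
    intro c _
    unfold Finsupp.sum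
    rw [Polynomial.sum_comp]
    refine Finset.sum_congr rfl fun k _ => ?_
    rw [mul_comp, C_comp]
    rfl
  have h1 : OnlyRealZeros (a.sum fun k c => C c * legendre k) := by
    rw [onlyReal_iff_comp, hcomp (fun _ b => b) (fun _ => rfl), ← ha]
    right
    intro z hz
    rw [map_pow, aeval_X] at hz
    rw [pow_eq_zero_iff'.1 hz |>.1]
    rfl
  have h2 := h a h1
  rw [onlyReal_iff_comp, hcomp (fun k b => (A.eval ((k : ℝ) * (k + 1)) +
      (2 * k + 1) * B.eval ((k : ℝ) * (k + 1))) * b) (fun _ => mul_zero _)] at h2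
  convert h2 using 1
  rw [ha, Finsupp.sum, map_sum, Finsupp.sum]
  refine Finset.sum_congr rfl fun k _ => ?_
  rw [← smul_eq_C_mul, map_smul, T_pl, ← smul_eq_C_mul, smul_smul, mul_comm]

/-! ## Newton's inequality -/

theorem splits_of_onlyReal (f : ℝ[X]) (h : OnlyRealZeros f) : f.Splits := by
  rcases h with h | h
  · rw [h]; exact Splits.zero
  by_cases hf : f = 0
  · rw [hf]; exact Splits.zero
  have hc : (f.map (algebraMap ℝ ℂ)).Splits := IsAlgClosed.splits _
  have hf' : f.map (algebraMap ℝ ℂ) ≠ 0 := (Polynomial.map_ne_zero_iff (algebraMap ℝ ℂ).injective).2 hf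
  refine Splits.of_splits_map (algebraMap ℝ ℂ) hc ?_
  intro z hz
  have h2 : z.im = 0 := by
    apply h
    have := (mem_roots hf').1 hz
    rwa [IsRoot, eval_map_algebraMap] at this
  refine ⟨z.re, ?_⟩
  apply Complex.ext
  · simp
  · simp [h2]

theorem newton (f : ℝ[X]) (h : OnlyRealZeros f) (k : ℕ) :
    ((k : ℝ) + 2) * (f.coeff k * f.coeff (k + 2)) ≤ ((k : ℝ) + 1) * f.coeff (k + 1) ^ 2 := by
  have hs := splits_of_onlyReal f h
  set d := f.natDegree + k + 2 with hd
  have h1 := RR722.NW.newton_deg hs d (by omega) k (by omega)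
  have hdk : (1 : ℝ) < (d : ℝ) - k := by
    have : ((k + 1 : ℕ) : ℝ) < d := by exact_mod_cast (by omega : k + 1 < d)
    push_cast at this
    linarith
  have h2 : ((d : ℝ) - k) * (((k : ℝ) + 2) * (f.coeff k * f.coeff (k + 2))) ≤
      ((d : ℝ) - k) * (((k : ℝ) + 1) * f.coeff (k + 1) ^ 2) := by
    have h3 : 0 ≤ ((k : ℝ) + 1) * f.coeff (k + 1) ^ 2 := by positivity
    nlinarith
  exact le_of_mul_le_mul_left h2 (by linarith)

end Pool.Agent.P8H71.Leg
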