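import Mathlib
import Pool.Agent.P8H71.LegC

set_option autoImplicit false

open Polynomial Finset Filter Topology

namespace Pool.Agent.P8H71.Leg

/-! ## Low order coefficients -/

theorem D_pow_low (f : ℝ[X]) (m : ℕ) (hf : ∀ i, i < m → f.coeff i = 0) (j : ℕ) :
    ∀ i, i + j < m → ((D ^ j) f).coeff i = 0 := by
  induction j with
  | zero => intro i hi; simpa using hf i hi
  | succ j ih =>
    intro i hi
    rw [pow_succ', Module.End.mul_apply, D_coeff, ih i (by omega), ih (i + 1) (by omega)]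
    ring

theorem aeval_D_low (A f : ℝ[X]) (m : ℕ) (hf : ∀ i, i < m → f.coeff i = 0) (i : ℕ)
    (hi : i + A.natDegree < m) : ((aeval D A) f).coeff i = 0 := by
  rw [aeval_eq_sum_range, LinearMap.sum_apply, finsetSum_coeff]
  apply Finset.sum_eq_zero
  intro j hj
  rw [mem_range] at hj
  rw [LinearMap.smul_apply, coeff_smul, D_pow_low f m hf j i (by omega), smul_zero]

/-! ## The operator on sequences -/

/-- The action of `D` on coefficient sequences. -/
def SD : Module.End ℝ (ℕ → ℝ) where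
  toFun c i := (i : ℝ) * (i + 1) * c i - ((i : ℝ) + 1) ^ 2 * c (i + 1)
  map_add' c d := by funext i; simp; ring
  map_smul' t c := by funext i; simp; ring

theorem SD_apply (c : ℕ → ℝ) (i : ℕ) :
    SD c i = (i : ℝ) * (i + 1) * c i - ((i : ℝ) + 1) ^ 2 * c (i + 1) := rfl

theorem SD_pow_coeff (f : ℝ[X]) (j : ℕ) :
    (fun i => ((D ^ j) f).coeff i) = (SD ^ j) (fun i => f.coeff i) := by
  induction j with
  | zero => simp
  | succ j ih =>
    rw [pow_succ' SD, Module.End.mul_apply, ← ih]
    funext i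
    rw [pow_succ', Module.End.mul_apply, D_coeff, SD_apply]

theorem SD_aeval_coeff (B f : ℝ[X]) :
    (fun i => ((aeval D B) f).coeff i) = (aeval SD B) (fun i => f.coeff i) := by
  rw [aeval_eq_sum_range, aeval_eq_sum_range, LinearMap.sum_apply, LinearMap.sum_apply]
  funext i
  rw [finsetSum_coeff, Finset.sum_apply]
  refine Finset.sum_congr rfl fun j _ => ?_
  rw [LinearMap.smul_apply, LinearMap.smul_apply, coeff_smul, ← SD_pow_coeff]
  rfl

theorem SD_continuous : Continuous (fun c : ℕ → ℝ => SD c) := by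
  refine continuous_pi fun i => ?_
  simp only [SD_apply]
  exact ((continuous_apply i).const_mul _).sub ((continuous_apply (i + 1)).const_mul _)

theorem SD_pow_continuous (j : ℕ) : Continuous (fun c : ℕ → ℝ => (SD ^ j) c) := by
  induction j with
  | zero => simpa using continuous_id'
  | succ j ih =>
    simp only [pow_succ', Module.End.mul_apply]
    exact SD_continuous.comp ih

theorem SD_aeval_continuous (B : ℝ[X]) : Continuous (fun c : ℕ → ℝ => (aeval SD B) c) := by
  simp only [aeval_eq_sum_range, LinearMap.sum_apply, LinearMap.smul_apply]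
  refine continuous_finsetSum _ fun j _ => ?_
  have h := (SD_pow_continuous j).const_smul (B.coeff j)
  exact h

/-! ## The operator on polynomials in the index -/

/-- The operator with `SD (r(i) u_i) = (DD r)(i) u_i`. -/
noncomputable def DD : Module.End ℝ ℝ[X] where
  toFun r := (X + 1) * (X * r - (X + C (1 / 2)) * r.comp (X + 1))
  map_add' r s := by rw [add_comp]; ring
  map_smul' t r := by
    rw [smul_comp]
    simp only [smul_eq_C_mul, RingHom.id_apply]
    ring

theorem DD_apply (r : ℝ[X]) :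
    DD r = (X + 1) * (X * r - (X + C (1 / 2)) * r.comp (X + 1)) := rfl

theorem SD_poly (r : ℝ[X]) :
    SD (fun i : ℕ => r.eval (i : ℝ) * u i) = fun i : ℕ => (DD r).eval (i : ℝ) * u i := by
  funext i
  rw [SD_apply, u_succ, DD_apply]
  simp only [eval_mul, eval_add, eval_sub, eval_X, eval_one, eval_C, eval_comp]
  push_cast
  field_simp

theorem SD_pow_poly (r : ℝ[X]) (j : ℕ) :
    (SD ^ j) (fun i : ℕ => r.eval (i : ℝ) * u i) =
      fun i : ℕ => ((DD ^ j) r).eval (i : ℝ) * u i := by
  induction j with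
  | zero => simp
  | succ j ih =>
    rw [pow_succ', Module.End.mul_apply, ih, SD_poly, pow_succ', Module.End.mul_apply]

theorem SD_aeval_poly (B r : ℝ[X]) :
    (aeval SD B) (fun i : ℕ => r.eval (i : ℝ) * u i) =
      fun i : ℕ => ((aeval DD B) r).eval (i : ℝ) * u i := by
  rw [aeval_eq_sum_range, aeval_eq_sum_range, LinearMap.sum_apply, LinearMap.sum_apply]
  funext i
  rw [eval_finsetSum, Finset.sum_apply, Finset.sum_mul]
  refine Finset.sum_congr rfl fun j _ => ?_
  rw [LinearMap.smul_apply, LinearMap.smul_apply, SD_pow_poly, Pi.smul_apply, eval_smul,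
    smul_eq_mul, smul_eq_mul, mul_assoc]

theorem DD_X_pow_aux (j : ℕ) :
    (X ^ (j + 1) - (X + C (1 / 2)) * (X + 1) ^ j : ℝ[X]).natDegree ≤ j ∧
      (X ^ (j + 1) - (X + C (1 / 2)) * (X + 1) ^ j : ℝ[X]).coeff j = -((j : ℝ) + 1 / 2) := by
  have hc : ∀ i, (X ^ (j + 1) - (X + C (1 / 2)) * (X + 1) ^ j : ℝ[X]).coeff (i + 1) =
      (if i = j then (1 : ℝ) else 0) - ((j.choose i : ℝ) + 1 / 2 * (j.choose (i + 1) : ℝ)) := by
    intro i
    rw [coeff_sub, add_mul, coeff_add, coeff_X_mul, coeff_C_mul, coeff_X_add_one_pow,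
      coeff_X_add_one_pow, coeff_X_pow]
    simp
  constructor
  · rw [natDegree_le_iff_coeff_eq_zero]
    intro N hN
    obtain ⟨i, rfl⟩ : ∃ i, N = i + 1 := ⟨N - 1, by omega⟩
    rw [hc]
    rcases Nat.lt_or_ge j i with h | h
    · rw [if_neg (by omega), Nat.choose_eq_zero_of_lt h, Nat.choose_eq_zero_of_lt (by omega)]
      simp
    · rw [if_pos (by omega), show i = j by omega, Nat.choose_self,
        Nat.choose_eq_zero_of_lt (by omega)]
      simp
  · rcases j with _ | j
    · simp
    · rw [hc, if_neg (by omega), Nat.choose_self, Nat.choose_succ_self_right]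
      push_cast
      ring

theorem DD_X_pow (j : ℕ) : (DD (X ^ j)).natDegree ≤ j + 1 ∧
    (DD (X ^ j)).coeff (j + 1) = -((j : ℝ) + 1 / 2) := by
  obtain ⟨h1, h2⟩ := DD_X_pow_aux j
  have e : DD (X ^ j) = (X + 1) * (X ^ (j + 1) - (X + C (1 / 2)) * (X + 1) ^ j) := by
    rw [DD_apply, X_pow_comp]
    ring
  rw [e]
  constructor
  · refine natDegree_mul_le.trans ?_
    have : (X + 1 : ℝ[X]).natDegree ≤ 1 := by
      rw [show (1 : ℝ[X]) = C 1 by simp]
      exact (natDegree_X_add_C _).le
    omega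
  · rw [add_mul, one_mul, coeff_add, coeff_X_mul, h2,
      coeff_eq_zero_of_natDegree_lt (by omega), add_zero]

theorem DD_coeff (r : ℝ[X]) (m : ℕ) (hr : r.natDegree ≤ m) :
    (DD r).natDegree ≤ m + 1 ∧ (DD r).coeff (m + 1) = -((m : ℝ) + 1 / 2) * r.coeff m := by
  have e : DD r = ∑ j ∈ range (m + 1), C (r.coeff j) * DD (X ^ j) := by
    conv_lhs => rw [r.as_sum_range_C_mul_X_pow' (Nat.lt_succ_of_le hr)]
    rw [map_sum]
    refine Finset.sum_congr rfl fun j _ => ?_
    rw [← smul_eq_C_mul, map_smul, smul_eq_C_mul]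
  constructor
  · rw [e]
    apply natDegree_sum_le_of_forall_le
    intro j hj
    rw [mem_range] at hj
    refine (natDegree_C_mul_le _ _).trans ((DD_X_pow j).1.trans (by omega))
  · rw [e, finsetSum_coeff, Finset.sum_range_succ, Finset.sum_eq_zero]
    · rw [coeff_C_mul, (DD_X_pow m).2]
      ring
    · intro j hj
      rw [mem_range] at hj
      rw [coeff_C_mul, coeff_eq_zero_of_natDegree_lt (lt_of_le_of_lt (DD_X_pow j).1 (by omega)),
        mul_zero]

theorem DD_pow_coeff (r : ℝ[X]) (m : ℕ) (hr : r.natDegree ≤ m) (h0 : r.coeff m ≠ 0) (j : ℕ) :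
    ((DD ^ j) r).natDegree ≤ m + j ∧ ((DD ^ j) r).coeff (m + j) ≠ 0 := by
  induction j with
  | zero => exact ⟨by simpa using hr, by simpa using h0⟩
  | succ j ih =>
    rw [pow_succ', Module.End.mul_apply]
    obtain ⟨h1, h2⟩ := DD_coeff _ (m + j) ih.1
    refine ⟨h1, ?_⟩
    rw [← add_assoc, h2]
    exact mul_ne_zero (by have : (0 : ℝ) ≤ ((m + j : ℕ) : ℝ) := Nat.cast_nonneg _; linarith) ih.2

theorem DD_aeval_ne_zero (B r : ℝ[X]) (hB : B ≠ 0) (m : ℕ) (hr : r.natDegree ≤ m)
    (h0 : r.coeff m ≠ 0) : (aeval DD B) r ≠ 0 := by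
  intro h
  have h1 : ((aeval DD B) r).coeff (m + B.natDegree) ≠ 0 := by
    rw [aeval_eq_sum_range, LinearMap.sum_apply, finsetSum_coeff, Finset.sum_range_succ,
      Finset.sum_eq_zero]
    · rw [zero_add, LinearMap.smul_apply, coeff_smul, smul_eq_mul]
      exact mul_ne_zero (leadingCoeff_ne_zero.2 hB) (DD_pow_coeff r m hr h0 _).2
    · intro j hj
      rw [mem_range] at hj
      rw [LinearMap.smul_apply, coeff_smul,
        coeff_eq_zero_of_natDegree_lt (lt_of_le_of_lt (DD_pow_coeff r m hr h0 j).1 (by omega)),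
        smul_zero]
  rw [h, coeff_zero] at h1
  exact h1 rfl

/-! ## The limit -/

theorem g_rec (m : ℕ) : (2 * (m : ℝ) + 2) * g (m + 1) = (2 * m - 1) * g m := by
  rcases m with _ | m
  · rw [g_succ, g_zero]; simp; norm_num
  · rw [g_succ, g_succ]
    have h1 := succ_mul_catalan_eq_centralBinom (m + 1)
    have h2 := succ_mul_catalan_eq_centralBinom m
    have h3 := Nat.succ_mul_centralBinom_succ m
    have h1' : ((m : ℝ) + 2) * (catalan (m + 1) : ℝ) = ((m + 1).centralBinom : ℝ) := by
      have : (((m + 1 + 1) * catalan (m + 1) : ℕ) : ℝ) = ((m + 1).centralBinom : ℝ) := by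
        exact_mod_cast h1
      push_cast at this
      linarith
    have h2' : ((m : ℝ) + 1) * (catalan m : ℝ) = (m.centralBinom : ℝ) := by exact_mod_cast h2
    have h3' : ((m : ℝ) + 1) * ((m + 1).centralBinom : ℝ) = 2 * (2 * m + 1) * (m.centralBinom : ℝ) := by
      exact_mod_cast h3
    have h4 : ((m : ℝ) + 2) * (catalan (m + 1) : ℝ) = 2 * (2 * m + 1) * (catalan m : ℝ) := by
      have h5 : ((m : ℝ) + 1) * (((m : ℝ) + 2) * (catalan (m + 1) : ℝ)) =
          ((m : ℝ) + 1) * (2 * (2 * m + 1) * (catalan m : ℝ)) := by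
        rw [h1', h3', ← h2']; ring
      exact mul_left_cancel₀ (by positivity) h5
    have h6 : (2 * ((m + 1 : ℕ) : ℝ) + 2) * (-2 * (catalan (m + 1) : ℝ) / 4 ^ (m + 1 + 1)) =
        (-4 / 4 ^ (m + 1 + 1)) * (((m : ℝ) + 2) * (catalan (m + 1) : ℝ)) := by
      push_cast; ring
    rw [h6, h4]
    push_cast
    ring

theorem ratio_tendsto : Tendsto (fun m : ℕ => g m / g (m + 1)) atTop (𝓝 1) := by
  have h1 : ∀ᶠ m : ℕ in atTop, 1 + 3 / (2 * (m : ℝ) - 1) = g m / g (m + 1) := by
    filter_upwards [eventually_ge_atTop 1] with m hm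
    have h2 := g_rec m
    have h3 := g_ne (m + 1)
    have hm' : (1 : ℝ) ≤ m := by exact_mod_cast hm
    have h4 : (2 * (m : ℝ) - 1) ≠ 0 := by linarith
    field_simp
    linear_combination h2
  refine Tendsto.congr' h1 ?_
  have h2 : Tendsto (fun m : ℕ => 2 * (m : ℝ) - 1) atTop atTop :=
    tendsto_atTop_add_const_right _ _ (tendsto_natCast_atTop_atTop.const_mul_atTop (by norm_num))
  have h3 := (tendsto_const_nhds (x := (3 : ℝ))).div_atTop h2
  simpa using h3.const_add 1

theorem ratio_tendsto' (i : ℕ) : Tendsto (fun n : ℕ => g (n - i) / g n) atTop (𝓝 1) := by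
  induction i with
  | zero =>
    refine tendsto_const_nhds.congr fun n => ?_
    rw [Nat.sub_zero, div_self (g_ne n)]
  | succ i ih =>
    have h1 : Tendsto (fun n : ℕ => g (n - (i + 1)) / g (n - (i + 1) + 1)) atTop (𝓝 1) :=
      ratio_tendsto.comp (tendsto_sub_atTop_nat (i + 1))
    have h2 := h1.mul ih
    rw [one_mul] at h2
    refine h2.congr' ?_
    filter_upwards [eventually_ge_atTop (i + 1)] with n hn
    rw [show n - (i + 1) + 1 = n - i by omega]
    have := g_ne (n - i)
    field_simp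

/-- The normalised coefficients of `M y^n`. -/
noncomputable def cs (n : ℕ) : ℕ → ℝ := fun i => (Mn n).coeff i / (g n / u n)

theorem cs_tendsto :
    Tendsto cs atTop (𝓝 (fun i : ℕ => (2 * X + 1 : ℝ[X]).eval (i : ℝ) * u i)) := by
  rw [tendsto_pi_nhds]
  intro i
  have h1 := (ratio_tendsto' i).const_mul ((2 * (i : ℝ) + 1) * u i)
  rw [mul_one] at h1
  have e : (2 * X + 1 : ℝ[X]).eval (i : ℝ) * u i = (2 * (i : ℝ) + 1) * u i := by simp
  rw [e]
  refine h1.congr' ?_
  filter_upwards [eventually_ge_atTop i] with n hn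
  unfold cs
  rw [Mn_coeff, if_pos hn]
  unfold mu
  have h2 := g_ne n
  have h3 := (u_pos n).ne'
  field_simp

theorem T_coeff_tendsto (A B : ℝ[X]) (i : ℕ) :
    Tendsto (fun n : ℕ => (T A B (X ^ n)).coeff i / (g n / u n)) atTop
      (𝓝 (((aeval DD B) (2 * X + 1)).eval (i : ℝ) * u i)) := by
  have h1 : Tendsto (fun n => (aeval SD B) (cs n) i) atTop
      (𝓝 ((aeval SD B) (fun i : ℕ => (2 * X + 1 : ℝ[X]).eval (i : ℝ) * u i) i)) :=
    ((continuous_apply i).tendsto _).comp (((SD_aeval_continuous B).tendsto _).comp cs_tendsto)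
  rw [SD_aeval_poly] at h1
  refine h1.congr' ?_
  filter_upwards [eventually_gt_atTop (i + A.natDegree)] with n hn
  unfold T
  rw [LinearMap.add_apply, Module.End.mul_apply, M_X_pow, coeff_add,
    aeval_D_low A (X ^ n) n (fun j hj => by rw [coeff_X_pow, if_neg (by omega)]) i hn, zero_add]
  have h2 : cs n = (g n / u n)⁻¹ • (fun i => (Mn n).coeff i) := by
    funext j
    unfold cs
    rw [Pi.smul_apply, smul_eq_mul, div_eq_inv_mul]
  rw [h2, map_smul, Pi.smul_apply, ← SD_aeval_coeff, smul_eq_mul, ← div_eq_inv_mul]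

/-- No nonzero sequence `R(i) u_i` satisfies Newton's inequalities. -/
theorem no_newton (R : ℝ[X]) (hR : R ≠ 0)
    (h : ∀ k : ℕ, ((k : ℝ) + 2) * ((R.eval (k : ℝ) * u k) * (R.eval ((k + 2 : ℕ) : ℝ) * u (k + 2))) ≤
      ((k : ℝ) + 1) * (R.eval ((k + 1 : ℕ) : ℝ) * u (k + 1)) ^ 2) : False := by
  set hh : ℕ → ℝ := fun i => R.eval (i : ℝ) * u i with hhh
  have hlim1 : Tendsto (fun x : ℝ => (R.comp (X + C 1)).eval x / R.eval x) atTop (𝓝 1) := by
    have hd : (R.comp (X + C 1)).degree = R.degree := by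
      rw [degree_eq_natDegree hR, degree_eq_natDegree]
      · rw [natDegree_comp, natDegree_X_add_C, mul_one]
      · intro h0
        have := congrArg natDegree h0
        have h3 : (R.comp (X + C 1)).leadingCoeff = 0 := by rw [h0]; simp
        rw [leadingCoeff_comp (by rw [natDegree_X_add_C]; norm_num), leadingCoeff_X_add_C,
          one_pow, mul_one] at h3
        exact hR (leadingCoeff_eq_zero.1 h3)
    have h1 := div_tendsto_atTop_leadingCoeff_div_of_degree_eq (R.comp (X + C 1)) R hd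
    rw [leadingCoeff_comp (by rw [natDegree_X_add_C]; norm_num), leadingCoeff_X_add_C,
      one_pow, mul_one, div_self (leadingCoeff_ne_zero.2 hR)] at h1
    exact h1
  have hlim2 : Tendsto (fun k : ℕ => R.eval ((k : ℝ) + 1) / R.eval (k : ℝ)) atTop (𝓝 1) := by
    refine (hlim1.comp tendsto_natCast_atTop_atTop).congr fun k => ?_
    simp
  have hlim3 : Tendsto (fun k : ℕ => (2 * (k : ℝ) + 1) / (2 * (k + 1))) atTop (𝓝 1) := by
    have h1 : ∀ k : ℕ, (2 * (k : ℝ) + 1) / (2 * (k + 1)) = 1 - (1 / 2) / ((k : ℝ) + 1) := by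
      intro k
      field_simp
      ring
    simp only [h1]
    have h2 : Tendsto (fun k : ℕ => (k : ℝ) + 1) atTop atTop :=
      tendsto_atTop_add_const_right _ _ tendsto_natCast_atTop_atTop
    have h3 := (tendsto_const_nhds (x := (1 / 2 : ℝ))).div_atTop h2
    simpa using h3.const_sub 1
  have hlim : Tendsto (fun k : ℕ => hh (k + 1) / hh k) atTop (𝓝 1) := by
    have h1 := hlim2.mul hlim3
    rw [mul_one] at h1
    refine h1.congr fun k => ?_
    simp only [hhh]
    rw [u_succ]
    have := (u_pos k).ne'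
    push_cast
    rw [mul_comm (u k), mul_div_mul_comm, mul_div_assoc, div_self this, mul_one]
  have hev : ∀ᶠ k in atTop, 1 / 2 < hh (k + 1) / hh k := hlim.eventually_const_lt (by norm_num)
  obtain ⟨K, hK⟩ := eventually_atTop.1 hev
  have hne : ∀ k, K ≤ k → hh k ≠ 0 := by
    intro k hk h0
    have := hK k hk
    rw [h0, div_zero] at this
    norm_num at this
  have hanti : ∀ k, K ≤ k → ((k + 1 : ℕ) + 1 : ℝ) * (hh (k + 2) / hh (k + 1)) ≤
      ((k : ℝ) + 1) * (hh (k + 1) / hh k) := by
    intro k hk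
    have h1 := h k
    change ((k : ℝ) + 2) * (hh k * hh (k + 2)) ≤ ((k : ℝ) + 1) * hh (k + 1) ^ 2 at h1
    have h2 := hne k hk
    have h3 := hne (k + 1) (by omega)
    have h4 : 0 < hh k * hh (k + 1) := by
      have h5 := hK k hk
      have h6 : hh k * hh (k + 1) = (hh (k + 1) / hh k) * hh k ^ 2 := by field_simp
      rw [h6]
      have : 0 < hh k ^ 2 := by positivity
      have h7 : 0 < hh (k + 1) / hh k := by linarith
      positivity
    have h8 : ((k + 1 : ℕ) + 1 : ℝ) * (hh (k + 2) / hh (k + 1)) =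
        (((k : ℝ) + 2) * (hh k * hh (k + 2))) / (hh k * hh (k + 1)) := by
      push_cast
      field_simp
      ring
    have h9 : ((k : ℝ) + 1) * (hh (k + 1) / hh k) =
        (((k : ℝ) + 1) * hh (k + 1) ^ 2) / (hh k * hh (k + 1)) := by
      field_simp
    rw [h8, h9]
    exact div_le_div_of_nonneg_right h1 h4.le
  have hbound : ∀ j, (((K + j : ℕ) : ℝ) + 1) * (hh (K + j + 1) / hh (K + j)) ≤
      ((K : ℝ) + 1) * (hh (K + 1) / hh K) := by
    intro j
    induction j with
    | zero => simp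
    | succ j ih => exact (hanti (K + j) (by omega)).trans ih
  obtain ⟨j, hj⟩ := exists_nat_gt (2 * (((K : ℝ) + 1) * (hh (K + 1) / hh K)))
  have h1 := hbound j
  have h2 := hK (K + j) (by omega)
  have h3 : ((j : ℝ) + 1) * (1 / 2) ≤ (((K + j : ℕ) : ℝ) + 1) * (hh (K + j + 1) / hh (K + j)) := by
    apply mul_le_mul _ h2.le (by norm_num) (by positivity)
    push_cast
    have : (0 : ℝ) ≤ K := Nat.cast_nonneg K
    linarith
  linarith

theorem B_eq_zero (A B : ℝ[X])
    (h : IsLegendreMultiplier (fun k => A.eval ((k : ℝ) * (k + 1)) +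
      (2 * k + 1) * B.eval ((k : ℝ) * (k + 1)))) : B = 0 := by
  by_contra hB
  have hne : (aeval DD B) (2 * X + 1) ≠ 0 := by
    apply DD_aeval_ne_zero B _ hB 1
    · rw [← C_two, show (1 : ℝ[X]) = C 1 by simp]; compute_degree
    · rw [← C_two, coeff_add, coeff_C_mul, coeff_X_one, coeff_one]; norm_num
  apply no_newton _ hne
  intro k
  have h0 := T_coeff_tendsto A B k
  have h1 := T_coeff_tendsto A B (k + 1)
  have h2 := T_coeff_tendsto A B (k + 2)
  have hL := (h0.mul h2).const_mul ((k : ℝ) + 2)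
  have hR := (h1.pow 2).const_mul ((k : ℝ) + 1)
  refine le_of_tendsto_of_tendsto hL hR (Eventually.of_forall fun n => ?_)
  have h3 := newton _ (T_real A B h n) k
  have h4 : 0 < (g n / u n) ^ 2 := by
    have := g_ne n
    have := (u_pos n).ne'
    positivity
  have h5 := div_le_div_of_nonneg_right h3 h4.le
  calc ((k : ℝ) + 2) * ((T A B (X ^ n)).coeff k / (g n / u n) *
        ((T A B (X ^ n)).coeff (k + 2) / (g n / u n)))
      = ((k : ℝ) + 2) * ((T A B (X ^ n)).coeff k * (T A B (X ^ n)).coeff (k + 2)) /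
        (g n / u n) ^ 2 := by ring
    _ ≤ ((k : ℝ) + 1) * (T A B (X ^ n)).coeff (k + 1) ^ 2 / (g n / u n) ^ 2 := h5
    _ = _ := by ring

/-! ## Decomposition of polynomials -/

theorem decompose (n : ℕ) (Q : ℝ[X]) (hQ : Q.natDegree ≤ n) :
    ∃ A B : ℝ[X], Q = A.comp (X * (X + 1)) + (2 * X + 1) * B.comp (X * (X + 1)) := by
  induction n using Nat.strong_induction_on generalizing Q with
  | _ n ih =>
    by_cases h0 : n = 0
    · subst h0
      refine ⟨Q, 0, ?_⟩
      rw [zero_comp, mul_zero, add_zero]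
      rw [eq_C_of_natDegree_le_zero hQ, C_comp]
    have hm1 : (X * (X + 1) : ℝ[X]).Monic := by
      rw [show (1 : ℝ[X]) = C 1 by simp]
      exact monic_X.mul (monic_X_add_C 1)
    have hd1 : (X * (X + 1) : ℝ[X]).natDegree = 2 := by
      rw [show (1 : ℝ[X]) = C 1 by simp, monic_X.natDegree_mul (monic_X_add_C 1), natDegree_X,
        natDegree_X_add_C]
    rcases Nat.even_or_odd' n with ⟨m, hm | hm⟩
    · -- even
      have hc : ((X * (X + 1) : ℝ[X]) ^ m).natDegree = n := by
        rw [hm1.natDegree_pow, hd1]; omega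
      have hc1 : ((X * (X + 1) : ℝ[X]) ^ m).coeff n = 1 := by
        rw [← hc]; exact hm1.pow m
      have h1 : (Q - C (Q.coeff n) * (X * (X + 1)) ^ m).natDegree ≤ n - 1 := by
        rw [natDegree_le_iff_coeff_eq_zero]
        intro i hi
        rcases Nat.lt_or_ge n i with h | h
        · rw [coeff_sub, coeff_C_mul, coeff_eq_zero_of_natDegree_lt (lt_of_le_of_lt hQ h),
            coeff_eq_zero_of_natDegree_lt (lt_of_le_of_lt hc.le h)]
          ring
        · rw [show i = n by omega, coeff_sub, coeff_C_mul, hc1]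
          ring
      obtain ⟨A, B, hAB⟩ := ih (n - 1) (by omega) _ h1
      refine ⟨A + C (Q.coeff n) * X ^ m, B, ?_⟩
      rw [add_comp, mul_comp, C_comp, X_pow_comp]
      linear_combination hAB
    · -- odd
      have hm2 : (C 2 * X + 1 : ℝ[X]).natDegree ≤ 1 := by
        rw [show (1 : ℝ[X]) = C 1 by simp]; compute_degree
      have hc : ((2 * X + 1) * (X * (X + 1) : ℝ[X]) ^ m).natDegree ≤ n := by
        refine natDegree_mul_le.trans ?_
        rw [hm1.natDegree_pow, hd1, ← C_two]
        omega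
      have hc1 : ((2 * X + 1) * (X * (X + 1) : ℝ[X]) ^ m).coeff n = 2 := by
        have e : (2 * X + 1) * (X * (X + 1) : ℝ[X]) ^ m =
          C 2 * (X * (X * (X + 1)) ^ m) + (X * (X + 1)) ^ m := by rw [C_two]; ring
        have hdm : ((X * (X + 1) : ℝ[X]) ^ m).natDegree = 2 * m := by
          rw [hm1.natDegree_pow, hd1]; ring
        rw [e, coeff_add, coeff_C_mul, hm, coeff_X_mul,
          coeff_eq_zero_of_natDegree_lt (p := (X * (X + 1) : ℝ[X]) ^ m) (n := 2 * m + 1)
            (by rw [hdm]; omega)]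
        have : ((X * (X + 1) : ℝ[X]) ^ m).coeff (2 * m) = 1 := by
          rw [← hdm]; exact hm1.pow m
        rw [this]; norm_num
      have h1 : (Q - C (Q.coeff n / 2) * ((2 * X + 1) * (X * (X + 1)) ^ m)).natDegree ≤ n - 1 := by
        rw [natDegree_le_iff_coeff_eq_zero]
        intro i hi
        rcases Nat.lt_or_ge n i with h | h
        · rw [coeff_sub, coeff_C_mul, coeff_eq_zero_of_natDegree_lt (by omega),
            coeff_eq_zero_of_natDegree_lt (lt_of_le_of_lt hc h)]
          ring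
        · rw [show i = n by omega, coeff_sub, coeff_C_mul, hc1]
          ring
      obtain ⟨A, B, hAB⟩ := ih (n - 1) (by omega) _ h1
      refine ⟨A, B + C (Q.coeff n / 2) * X ^ m, ?_⟩
      rw [add_comp, mul_comp, C_comp, X_pow_comp]
      linear_combination hAB

/-- **A polynomial sequence which is a Legendre multiplier sequence is a polynomial in
`k (k + 1)`.** -/
theorem symmetric_of_multiplier (Q : ℝ[X])
    (h : IsLegendreMultiplier (fun k => Q.eval (k : ℝ))) :
    ∃ A : ℝ[X], Q = A.comp (X * (X + 1)) := by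
  obtain ⟨A, B, hAB⟩ := decompose Q.natDegree Q le_rfl
  refine ⟨A, ?_⟩
  have h1 : IsLegendreMultiplier (fun k => A.eval ((k : ℝ) * (k + 1)) +
      (2 * k + 1) * B.eval ((k : ℝ) * (k + 1))) := by
    convert h using 2 with k
    rw [hAB]
    simp [eval_comp]
  rw [B_eq_zero A B h1, zero_comp, mul_zero, add_zero] at hAB
  exact hAB

theorem even_natDegree_of_multiplier (Q : ℝ[X])
    (h : IsLegendreMultiplier (fun k => Q.eval (k : ℝ))) : Even Q.natDegree := by
  obtain ⟨A, rfl⟩ := symmetric_of_multiplier Q h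
  have hd1 : (X * (X + 1) : ℝ[X]).natDegree = 2 := by
    rw [show (1 : ℝ[X]) = C 1 by simp, monic_X.natDegree_mul (monic_X_add_C 1), natDegree_X,
      natDegree_X_add_C]
  rw [natDegree_comp, hd1]
  exact ⟨A.natDegree, by ring⟩

end Pool.Agent.P8H71.Leg
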