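import Mathlib
import Pool.Agent.P8H71.LegD

set_option autoImplicit false

open Polynomial Finset Filter Topology

namespace Pool.Agent.P8H71.Leg

theorem T_ne_real (A B : ℝ[X]) (hB : B ≠ 0) :
    ∀ᶠ n : ℕ in atTop, ¬ OnlyRealZeros (T A B (X ^ n)) := by
  have hne : (aeval DD B) (2 * X + 1) ≠ 0 := by
    apply DD_aeval_ne_zero B _ hB 1
    · rw [← C_two, show (1 : ℝ[X]) = C 1 by simp]; compute_degree
    · rw [← C_two, coeff_add, coeff_C_mul, coeff_X_one, coeff_one]; norm_num
  have h0 : ∃ k : ℕ, ((k : ℝ) + 1) * (((aeval DD B) (2 * X + 1)).eval ((k + 1 : ℕ) : ℝ) *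
      u (k + 1)) ^ 2 < ((k : ℝ) + 2) * ((((aeval DD B) (2 * X + 1)).eval (k : ℝ) * u k) *
      (((aeval DD B) (2 * X + 1)).eval ((k + 2 : ℕ) : ℝ) * u (k + 2))) := by
    by_contra hcon
    push Not at hcon
    exact no_newton _ hne hcon
  obtain ⟨k, hk⟩ := h0
  have h0 := T_coeff_tendsto A B k
  have h1 := T_coeff_tendsto A B (k + 1)
  have h2 := T_coeff_tendsto A B (k + 2)
  have hL := (h0.mul h2).const_mul ((k : ℝ) + 2)
  have hR := (h1.pow 2).const_mul ((k : ℝ) + 1)
  filter_upwards [hR.eventually_lt hL hk] with n hn hreal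
  have h3 := newton _ hreal k
  have h4 : 0 < (g n / u n) ^ 2 := by
    have := g_ne n
    have := (u_pos n).ne'
    positivity
  have h5 := div_le_div_of_nonneg_right h3 h4.le
  have h6 : ((k : ℝ) + 2) * ((T A B (X ^ n)).coeff k / (g n / u n) *
        ((T A B (X ^ n)).coeff (k + 2) / (g n / u n)))
      = ((k : ℝ) + 2) * ((T A B (X ^ n)).coeff k * (T A B (X ^ n)).coeff (k + 2)) /
        (g n / u n) ^ 2 := by ring
  have h7 : ((k : ℝ) + 1) * ((T A B (X ^ n)).coeff (k + 1) / (g n / u n)) ^ 2 =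
      ((k : ℝ) + 1) * (T A B (X ^ n)).coeff (k + 1) ^ 2 / (g n / u n) ^ 2 := by ring
  rw [h6, h7] at hn
  linarith

theorem onlyReal_C_mul (c : ℝ) (hc : c ≠ 0) (F : ℝ[X]) :
    OnlyRealZeros (C c * F) ↔ OnlyRealZeros F := by
  unfold OnlyRealZeros
  have hc' : (c : ℂ) ≠ 0 := by exact_mod_cast hc
  constructor
  · rintro (h | h)
    · left
      rcases mul_eq_zero.1 h with h1 | h1
      · exact absurd (C_eq_zero.1 h1) hc
      · exact h1
    · right
      intro z hz
      apply h z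
      rw [map_mul, hz, mul_zero]
  · rintro (h | h)
    · left; rw [h, mul_zero]
    · right
      intro z hz
      apply h z
      rw [map_mul, aeval_C] at hz
      rcases mul_eq_zero.1 hz with h1 | h1
      · exact absurd h1 hc'
      · exact h1

theorem exists_legendre_expansion (n : ℕ) :
    ∃ a : ℕ →₀ ℝ, (a.sum fun k c => C c * legendre k) = (1 + X) ^ n := by
  obtain ⟨a, ha⟩ := exists_expansion n ((2 * X) ^ n) (by
    refine natDegree_pow_le.trans ?_
    have : (2 * X : ℝ[X]).natDegree ≤ 1 := by rw [← C_two]; compute_degree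
    calc n * (2 * X : ℝ[X]).natDegree ≤ n * 1 := Nat.mul_le_mul_left n this
      _ = n := mul_one n)
  refine ⟨a, ?_⟩
  have hinv : ∀ G : ℝ[X], (G.comp (2 * X - 1)).comp (C (1/2) * X + C (1/2)) = G := by
    intro G
    rw [comp_assoc]
    have : (2 * X - 1 : ℝ[X]).comp (C (1/2) * X + C (1/2)) = X := by
      rw [← C_two, show (1 : ℝ[X]) = C 1 by simp]
      simp only [sub_comp, mul_comp, C_comp, X_comp]
      rw [mul_add, ← mul_assoc, ← C_mul]
      norm_num
    rw [this, comp_X]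
  have h1 : (a.sum fun k c => C c * legendre k).comp (2 * X - 1) =
      ((1 + X) ^ n : ℝ[X]).comp (2 * X - 1) := by
    unfold Finsupp.sum
    rw [Polynomial.sum_comp]
    have e1 : ((1 + X) ^ n : ℝ[X]).comp (2 * X - 1) = (2 * X) ^ n := by
      rw [pow_comp, add_comp, one_comp, X_comp]
      congr 1
      ring
    rw [e1, ha, Finsupp.sum]
    refine Finset.sum_congr rfl fun k _ => ?_
    rw [mul_comp, C_comp]
    rfl
  have h2 := congrArg (fun G : ℝ[X] => G.comp (C (1/2) * X + C (1/2))) h1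
  simp only [hinv] at h2
  exact h2

/-- For a polynomial sequence which is not a polynomial in `k (k + 1)`, the images of all high powers
`(1 + x)^n` have non-real zeros. -/
theorem eventually_nonreal (Q : ℝ[X]) (hQ : ¬ ∃ A : ℝ[X], Q = A.comp (X * (X + 1))) :
    ∀ᶠ n : ℕ in atTop, ∀ a : ℕ →₀ ℝ, (a.sum fun k c => C c * legendre k) = (1 + X) ^ n →
      ∃ z : ℂ, z.im ≠ 0 ∧
        aeval z (a.sum fun k c => C (Q.eval (k : ℝ) * c) * legendre k) = 0 := by
  obtain ⟨A, B, hAB⟩ := decompose Q.natDegree Q le_rfl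
  have hB : B ≠ 0 := by
    rintro rfl
    exact hQ ⟨A, by rw [hAB, zero_comp, mul_zero, add_zero]⟩
  filter_upwards [T_ne_real A B hB] with n hn a ha
  have hval : ∀ k : ℕ, Q.eval (k : ℝ) = A.eval ((k : ℝ) * (k + 1)) +
      (2 * k + 1) * B.eval ((k : ℝ) * (k + 1)) := by
    intro k
    conv_lhs => rw [hAB]
    simp [eval_comp]
  have h1 : (a.sum fun k c => C c * pl k) = C (2 ^ n) * X ^ n := by
    have h2 := congrArg (fun G : ℝ[X] => G.comp (2 * X - 1)) ha
    simp only [Finsupp.sum, Polynomial.sum_comp] at h2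
    have e1 : ((1 + X) ^ n : ℝ[X]).comp (2 * X - 1) = C (2 ^ n) * X ^ n := by
      rw [pow_comp, add_comp, one_comp, X_comp, C_pow, C_two, ← mul_pow]
      congr 1
      ring
    rw [e1] at h2
    rw [← h2, Finsupp.sum]
    refine Finset.sum_congr rfl fun k _ => ?_
    rw [mul_comp, C_comp]
    rfl
  have h3 : (a.sum fun k c => C (Q.eval (k : ℝ) * c) * legendre k).comp (2 * X - 1) =
      C (2 ^ n) * T A B (X ^ n) := by
    rw [← smul_eq_C_mul, ← map_smul, smul_eq_C_mul, ← h1, Finsupp.sum, Finsupp.sum,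
      Polynomial.sum_comp, map_sum]
    refine Finset.sum_congr rfl fun k _ => ?_
    have h5 : T A B (C (a k) * pl k) = C (Q.eval (k : ℝ) * a k) * pl k := by
      rw [← smul_eq_C_mul, map_smul, T_pl, hval, smul_smul, smul_eq_C_mul, mul_comm (a k)]
    rw [mul_comp, C_comp, h5]
    rfl
  have h4 : ¬ OnlyRealZeros (a.sum fun k c => C (Q.eval (k : ℝ) * c) * legendre k) := by
    rw [onlyReal_iff_comp, h3, onlyReal_C_mul _ (by positivity)]
    exact hn
  unfold OnlyRealZeros at h4
  push Not at h4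
  obtain ⟨-, z, hz, hz2⟩ := h4
  exact ⟨z, hz2, hz⟩

theorem natDegree_comp_even (A : ℝ[X]) : Even (A.comp (X * (X + 1))).natDegree := by
  have hd1 : (X * (X + 1) : ℝ[X]).natDegree = 2 := by
    rw [show (1 : ℝ[X]) = C 1 by simp, monic_X.natDegree_mul (monic_X_add_C 1), natDegree_X,
      natDegree_X_add_C]
  rw [natDegree_comp, hd1]
  exact ⟨A.natDegree, by ring⟩

end Pool.Agent.P8H71.Leg
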